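import Pool.Agent.H716R3.Neg
import Pool.Agent.H716R3.K2
import Pool.Agent.H716R3.Umd

/-!
# A positive contraction semigroup on a UMD Banach lattice without bounded imaginary powers
-/

set_option autoImplicit false

open Pool.Agent.H716R3 Pool.Agent.Helper604.UMD
open scoped NNReal ENNReal

namespace Pool.Agent.Results.MP_04e97d_an.NoCalculus

universe u v w

/-- `X` is, through `incl`, the complexification of the real Banach lattice `E`, with the norm of the modulus:
every `z` is uniquely `a + i b`, and the norm of `a + i b` is the norm of its modulus `sup_θ (a cos θ + b sin θ)`. -/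
structure IsComplexBanachLattice {E : Type u} {X : Type v} [NormedAddCommGroup E] [NormedSpace ℝ E] [Lattice E]
    [NormedAddCommGroup X] [NormedSpace ℂ X] (incl : E →ₗ[ℝ] X) : Prop where
  completeE : CompleteSpace E
  completeX : CompleteSpace X
  add_mono : ∀ a b c : E, a ≤ b → a + c ≤ b + c
  smul_nonneg : ∀ (r : ℝ) (a : E), 0 ≤ r → 0 ≤ a → 0 ≤ r • a
  solid : ∀ a b : E, |a| ≤ |b| → ‖a‖ ≤ ‖b‖
  decomposition : ∀ z : X, ∃! p : E × E, z = incl p.1 + Complex.I • incl p.2
  norm_modulus : ∀ a b : E, ∃ m : E, IsLUB (Set.range fun θ : ℝ => Real.cos θ • a + Real.sin θ • b) m ∧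
    ‖incl a + Complex.I • incl b‖ = ‖m‖

/-- `-A` generates a positive contractive `C_0`-semigroup on the complex Banach lattice `X`, the complexification of `E`. -/
def GeneratesPositiveContractions {E : Type u} {X : Type v} [NormedAddCommGroup E] [NormedSpace ℝ E] [Lattice E]
    [NormedAddCommGroup X] [NormedSpace ℂ X] (incl : E →ₗ[ℝ] X) (A : X →ₗ.[ℂ] X) : Prop :=
  ∃ T : ℝ≥0 → X →L[ℂ] X, IsC0Semigroup T ∧ IsGenerator T (-A) ∧ (∀ t, ‖T t‖ ≤ 1) ∧
    ∀ t, ∀ a : E, 0 ≤ a → ∃ b : E, 0 ≤ b ∧ T t (incl a) = incl b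

/-- There are a UMD Banach lattice `X` and a sectorial operator `A` on `X` such that `-A` generates a positive contractive
`C_0`-semigroup, while `A` has neither a bounded `H^∞`-calculus nor bounded imaginary powers. -/
theorem result : ∃ (E X : Type) (_ : NormedAddCommGroup E) (_ : NormedSpace ℝ E) (_ : Lattice E)
    (_ : NormedAddCommGroup X) (_ : NormedSpace ℂ X) (incl : E →ₗ[ℝ] X) (A : X →ₗ.[ℂ] X),
    IsComplexBanachLattice incl ∧ IsUMD.{0, w} X ∧ IsSectorial A ∧ GeneratesPositiveContractions incl A ∧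
    ¬ HasBoundedHInftyCalculus A ∧ ¬ HasBIP A := by
  have h12 : (1 : ℝ) < 2 := by norm_num
  have : Fact ((1 : ℝ≥0∞) ≤ 2) := ⟨by norm_num⟩
  refine ⟨ER, XC, inferInstance, inferInstance, inferInstance, inferInstance, inferInstance, incl, mK.A h12, ?_,
    isUMD_of_equiv isoH, mK.isSectorial h12, ⟨mK.T h12, mK.isC0 h12, mK.isGen h12, fun t => T_contr t, fun t a ha => T_pos t a ha⟩,
    mK.no_hinf h12, mK.no_bip h12⟩
  exact
    { completeE := inferInstance
      completeX := inferInstance
      add_mono := fun a b c h => add_le_add_left h c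
      smul_nonneg := fun r a hr ha => _root_.smul_nonneg hr ha
      solid := fun a b h => HasSolidNorm.solid h
      decomposition := decomp
      norm_modulus := modulus }

end Pool.Agent.Results.MP_04e97d_an.NoCalculus
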